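import Mathlib

/-!
# The sweeps of the double row matrix in the ring of partial raising operators

`R` is a commutative algebra with elements `E i` satisfying `E i ^ 2 + E i E (i+1) + E (i+1) ^ 2 = 0`,
`E 0 = 0`; `Xs i p` is the transposed tile on the strands `i, i+1` (it acts on the bond `i + 1`).
A row of tiles acts on squarefree monomials in the `E i` by a row of the six vertex model.
-/

set_option autoImplicit false

namespace Pool.Agent.Helper69.Rect

open Finset

/-! ### Six vertex rows on lists -/

section Rows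

variable {K : Type*} [CommRing K]

/-- six vertex weights: auxiliary spin, in, out, auxiliary spin -/
def wt (p : K) : Bool → Bool → Bool → Bool → K
  | false, false, false, false => p
  | false, true, true, false => 1 - p
  | false, true, false, true => 1
  | true, false, true, false => 1 - p * (1 - p)
  | true, false, false, true => 1 - p
  | true, true, true, true => p
  | _, _, _, _ => 0

/-- sum over the lists of length `m` -/
def sm {M : Type*} [AddCommMonoid M] : ℕ → (List Bool → M) → M
  | 0, f => f []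
  | m + 1, f => sm m (fun z => f (false :: z)) + sm m (fun z => f (true :: z))

/-- sum over the Booleans -/
def sb {M : Type*} [AddCommMonoid M] (f : Bool → M) : M := f false + f true

/-- a row, read from the left: auxiliary spin `s` on the left, `t` on the right -/
def T (p : K) : List Bool → List Bool → Bool → Bool → K
  | [], [], s, t => if s = t then 1 else 0
  | n :: x, n' :: z, s, t => sb fun s' => wt p s n n' s' * T p x z s' t
  | _, _, _, _ => 0

/-- a row, swept from the right: auxiliary spin `t` on the right, `s` on the left -/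
def T2 (p : K) : List Bool → List Bool → Bool → Bool → K
  | [], [], t, s => if s = t then 1 else 0
  | n :: z, n' :: x, t, s => sb fun s' => T2 p z x t s' * wt p s' n n' s
  | _, _, _, _ => 0

/-- left wall -/
def KL (p : K) : Bool → K
  | false => 1
  | true => 1 - p

/-- right wall -/
def KR (p : K) : Bool → K
  | false => p
  | true => 1

/-- the transposed double row matrix on the configurations of the bonds -/
def Dm (p : K) (x y : List Bool) : K :=
  sb fun s => sb fun t => KL p s * KR p t * sm x.length fun z => T p x z s t * T2 p z y t s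

variable {M : Type*} [AddCommMonoid M]

lemma sb_def (f : Bool → M) : sb f = f false + f true := rfl

lemma sm_congr {m : ℕ} {f g : List Bool → M} (h : ∀ z, z.length = m → f z = g z) :
    sm m f = sm m g := by
  induction m generalizing f g with
  | zero => exact h [] rfl
  | succ m ih =>
    simp only [sm]
    rw [ih (g := fun z => g (false :: z)) (fun z hz => h _ (by simp [hz])),
      ih (g := fun z => g (true :: z)) (fun z hz => h _ (by simp [hz]))]

lemma sm_add {m : ℕ} (f g : List Bool → M) :
    sm m (fun z => f z + g z) = sm m f + sm m g := by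
  induction m generalizing f g with
  | zero => rfl
  | succ m ih => simp only [sm, ih]; exact add_add_add_comm _ _ _ _

lemma sm_map {M' : Type*} [AddCommMonoid M'] {F : Type*} [FunLike F M M'] [AddMonoidHomClass F M M']
    (φ : F) {m : ℕ} (f : List Bool → M) : φ (sm m f) = sm m (fun z => φ (f z)) := by
  induction m generalizing f with
  | zero => rfl
  | succ m ih => simp only [sm, map_add, ih]

lemma sm_zero {m : ℕ} : sm m (fun _ => (0 : M)) = 0 := by
  induction m with
  | zero => rfl
  | succ m ih => simp only [sm, ih, add_zero]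

lemma sm_mul_left {S : Type*} [NonUnitalNonAssocSemiring S] {m : ℕ} (a : S) (f : List Bool → S) :
    a * sm m f = sm m (fun z => a * f z) :=
  sm_map (AddMonoidHom.mulLeft a) f

lemma sm_mul_right {S : Type*} [NonUnitalNonAssocSemiring S] {m : ℕ} (a : S)
    (f : List Bool → S) : sm m f * a = sm m (fun z => f z * a) :=
  sm_map (AddMonoidHom.mulRight a) f

lemma sm_smul {N : Type*} [AddCommMonoid N] [Module K N] {m : ℕ} (f : List Bool → K) (n : N) :
    sm m f • n = sm m (fun z => f z • n) :=
  sm_map (LinearMap.toSpanSingleton K N n) f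

lemma smul_sm {N : Type*} [AddCommMonoid N] [Module K N] {m : ℕ} (a : K) (f : List Bool → N) :
    a • sm m f = sm m (fun z => a • f z) :=
  sm_map (DistribSMul.toAddMonoidHom N a) f

/-- interchange of two sums -/
lemma sm_comm {m m' : ℕ} (f : List Bool → List Bool → M) :
    sm m (fun z => sm m' (fun y => f z y)) = sm m' (fun y => sm m (fun z => f z y)) := by
  induction m generalizing f with
  | zero => rfl
  | succ m ih =>
    simp only [sm]
    rw [ih, ih, ← sm_add]

lemma sm_sb {m : ℕ} (f : List Bool → Bool → M) :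
    sm m (fun z => sb (f z)) = sb fun s => sm m (fun z => f z s) := by
  simp only [sb_def, sm_add]

lemma sm_mem {S : Type*} [SetLike S M] [AddSubmonoidClass S M] (A : S) {m : ℕ}
    {f : List Bool → M} (h : ∀ z, z.length = m → f z ∈ A) : sm m f ∈ A := by
  induction m generalizing f with
  | zero => exact h [] rfl
  | succ m ih =>
    exact add_mem (ih fun z hz => h _ (by simp [hz])) (ih fun z hz => h _ (by simp [hz]))

lemma sb_mem {S : Type*} [SetLike S M] [AddSubmonoidClass S M] (A : S) {f : Bool → M}
    (h : ∀ s, f s ∈ A) : sb f ∈ A := add_mem (h _) (h _)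

lemma sm_sub {N : Type*} [AddCommGroup N] {m : ℕ} (f g : List Bool → N) :
    sm m (fun z => f z - g z) = sm m f - sm m g := by
  induction m generalizing f g with
  | zero => rfl
  | succ m ih => simp only [sm, ih]; exact add_sub_add_comm _ _ _ _ |>.symm

end Rows

/-! ### The ring -/

/-- the data of the ring of partial raising operators seen by the tiles -/
structure RingSys (K R : Type*) [CommRing K] [CommRing R] [Algebra K R] where
  /-- partial raising operators -/
  E : ℕ → R
  E0 : E 0 = 0
  rel : ∀ i, E i ^ 2 + E i * E (i + 1) + E (i + 1) ^ 2 = 0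
  /-- transposed tile on the strands `i, i+1` -/
  Xs : ℕ → K → R →ₗ[K] R
  Xs_one : ∀ i p, Xs i p 1 = p • (1 : R)
  Xs_E : ∀ i p, Xs i p (E (i + 1)) = E (i + 1) + (1 - p) • (E i + E (i + 2))
  Xs_mul : ∀ i j p ψ, j ≠ i + 1 → Xs i p (E j * ψ) = E j * Xs i p ψ
  /-- transposed cup at the left wall -/
  cs : R →ₗ[K] R
  cs_one : cs 1 = 0
  cs_E : cs (E 1) = 1
  cs_mul : ∀ j ψ, cs (E (j + 2) * ψ) = E j * cs ψ
  /-- transposed cap at the left wall -/
  ks : R →ₗ[K] R
  ks_one : ks 1 = E 1 + E 2
  ks_mul : ∀ j ψ, ks (E (j + 1) * ψ) = E (j + 3) * ks ψ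

namespace RingSys

variable {K R : Type*} [CommRing K] [CommRing R] [Algebra K R] (G : RingSys K R)

/-- `E j` to the power of an occupation number -/
def En (j : ℕ) (s : Bool) : R := cond s (G.E j) 1

/-- auxiliary spin between two tiles when sweeping to the right -/
def Z (p : K) (j : ℕ) (s : Bool) : R := cond s (G.E j + (1 - p) • G.E (j + 1)) 1

/-- auxiliary spin between two tiles when sweeping to the left -/
def Z' (p : K) (j : ℕ) (s : Bool) : R := cond s (G.E (j + 1) + (1 - p) • G.E j) 1

/-- squarefree monomial of a configuration on the bonds `j, j+1, ...` -/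
def pr : ℕ → List Bool → R
  | _, [] => 1
  | j, n :: x => G.En j n * pr (j + 1) x

lemma pr_nil (j : ℕ) : G.pr j [] = 1 := rfl

lemma pr_cons (j : ℕ) (n : Bool) (x : List Bool) :
    G.pr j (n :: x) = G.En j n * G.pr (j + 1) x := rfl

/-- `P` can be pulled out of the tile `i` -/
def Out (P : R) (i : ℕ) : Prop := ∀ p ψ, G.Xs i p (P * ψ) = P * G.Xs i p ψ

variable {G}

lemma Out.one (i : ℕ) : G.Out 1 i := fun p ψ => by simp

lemma Out.mul {P Q : R} {i : ℕ} (hP : G.Out P i) (hQ : G.Out Q i) : G.Out (P * Q) i :=
  fun p ψ => by rw [mul_assoc, hP, hQ, mul_assoc]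

lemma Out.E {i j : ℕ} (h : j ≠ i + 1) : G.Out (G.E j) i := fun p ψ => G.Xs_mul i j p ψ h

lemma Out.En {i j : ℕ} (h : j ≠ i + 1) (s : Bool) : G.Out (G.En j s) i := by
  cases s
  · exact Out.one i
  · exact Out.E h

lemma Out.pr {i : ℕ} (x : List Bool) : ∀ {j : ℕ}, i + 1 < j → G.Out (G.pr j x) i := by
  induction x with
  | nil => intro j _; exact Out.one i
  | cons n x ih => intro j hj; exact (Out.En (by omega) n).mul (ih (by omega))

lemma Out.pr' {i : ℕ} (x : List Bool) : ∀ {j : ℕ}, j + x.length ≤ i + 1 → G.Out (G.pr j x) i := by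
  induction x with
  | nil => intro j _; exact Out.one i
  | cons n x ih =>
    intro j hj
    simp only [List.length_cons] at hj
    exact (Out.En (by omega) n).mul (ih (by omega))

lemma Out.right {P : R} {i : ℕ} (h : G.Out P i) (p : K) (ψ : R) :
    G.Xs i p (ψ * P) = G.Xs i p ψ * P := by
  rw [mul_comm, h, mul_comm]

variable (G)

lemma Xs_one' (i : ℕ) (p : K) (ψ : R) (h : G.Out ψ i) : G.Xs i p ψ = p • ψ := by
  have := h p 1
  rw [mul_one, G.Xs_one] at this
  rw [this]; simp

lemma Xs_E' (i : ℕ) (p : K) (ψ : R) (h : G.Out ψ i) :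
    G.Xs i p (ψ * G.E (i + 1)) = ψ * (G.E (i + 1) + (1 - p) • (G.E i + G.E (i + 2))) := by
  rw [h, G.Xs_E]

/-- one tile, sweeping to the right -/
lemma tileR (p : K) (i : ℕ) (s n : Bool) :
    G.Xs i p (G.Z p i s * G.En (i + 1) n) =
      sb fun s' => sb fun n' => wt p s n n' s' • (G.En i n' * G.Z p (i + 1) s') := by
  have hE : G.Out (G.E i) i := Out.E (by omega)
  have hE2 : G.Out (G.E (i + 2)) i := Out.E (by omega)
  have r := G.rel i
  cases s <;> cases n
  · simp [sb_def, Z, En, wt, G.Xs_one, Algebra.smul_def]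
  · simp only [sb_def, Z, En, wt, cond_true, cond_false, one_mul, mul_one, G.Xs_E, zero_smul,
      add_zero, zero_add, one_smul, smul_add]
    abel
  · simp only [sb_def, Z, En, wt, cond_true, cond_false, one_mul, mul_one, map_add, map_smul,
      G.Xs_one' i p _ hE, G.Xs_E, zero_smul, add_zero, zero_add]
    module
  · have h2 : (G.E i + (1 - p) • G.E (i + 1)) * G.E (i + 1) =
        p • (G.E i * G.E (i + 1)) - (1 - p) • (G.E i * G.E i) := by
      simp only [Algebra.smul_def, map_sub, map_one]
      linear_combination (1 - algebraMap K R p) * r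
    simp only [sb_def, Z, En, wt, cond_true, cond_false, one_mul, mul_one, zero_smul, zero_add]
    rw [h2, map_sub, map_smul, map_smul, G.Xs_E' i p _ hE, G.Xs_one' i p _ (hE.mul hE)]
    simp only [Algebra.smul_def, map_sub, map_one]
    ring

/-- one tile, sweeping to the left -/
lemma tileL (p : K) (i : ℕ) (s n : Bool) :
    G.Xs i p (G.En (i + 1) n * G.Z' p (i + 1) s) =
      sb fun s' => sb fun n' => wt p s n n' s' • (G.Z' p i s' * G.En (i + 2) n') := by
  have hE : G.Out (G.E i) i := Out.E (by omega)
  have hE2 : G.Out (G.E (i + 2)) i := Out.E (by omega)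
  have r := G.rel (i + 1)
  cases s <;> cases n
  · simp [sb_def, Z', En, wt, G.Xs_one, Algebra.smul_def]
  · simp only [sb_def, Z', En, wt, cond_true, cond_false, one_mul, mul_one, G.Xs_E, zero_smul,
      add_zero, zero_add, one_smul, smul_add]
    abel
  · simp only [sb_def, Z', En, wt, cond_true, cond_false, one_mul, mul_one, map_add, map_smul,
      G.Xs_one' i p _ hE2, G.Xs_E, zero_smul, add_zero, zero_add]
    module
  · have h2 : G.E (i + 1) * (G.E (i + 2) + (1 - p) • G.E (i + 1)) =
        p • (G.E (i + 2) * G.E (i + 1)) - (1 - p) • (G.E (i + 2) * G.E (i + 2)) := by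
      simp only [Algebra.smul_def, map_sub, map_one]
      linear_combination (1 - algebraMap K R p) * r
    simp only [sb_def, Z', En, wt, cond_true, cond_false, one_mul, mul_one, zero_smul, zero_add]
    rw [h2, map_sub, map_smul, map_smul, G.Xs_E' i p _ hE2, G.Xs_one' i p _ (hE2.mul hE2)]
    simp only [Algebra.smul_def, map_sub, map_one]
    ring

/-! ### Rows -/

/-- the tiles `i, i+1, ..., i+m-1`, the tile `i` first -/
def sweepR (p : K) : ℕ → ℕ → (R →ₗ[K] R)
  | _, 0 => LinearMap.id
  | i, m + 1 => sweepR p (i + 1) m ∘ₗ G.Xs i p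

/-- the tiles `i, i+1, ..., i+m-1`, the tile `i` last -/
def sweepL (p : K) : ℕ → ℕ → (R →ₗ[K] R)
  | _, 0 => LinearMap.id
  | i, m + 1 => G.Xs i p ∘ₗ sweepL p (i + 1) m

omit G in
lemma smul_sm' {m : ℕ} (a : K) (f : List Bool → R) :
    a • sm m f = sm m (fun z => a • f z) := smul_sm a f

omit G in
lemma sb_map {M M' F : Type*} [AddCommMonoid M] [AddCommMonoid M'] [FunLike F M M']
    [AddMonoidHomClass F M M'] (φ : F) (f : Bool → M) : φ (sb f) = sb (fun s => φ (f s)) := by
  simp only [sb_def, map_add]

/-- sweep to the right -/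
theorem sweepR_pr (p : K) (x : List Bool) : ∀ (i : ℕ) (P : R) (s : Bool),
    (∀ j, i ≤ j → j < i + x.length → G.Out P j) →
    G.sweepR p i x.length (P * (G.Z p i s * G.pr (i + 1) x)) =
      sm x.length fun z => sb fun t =>
        T p x z s t • (P * (G.pr i z * G.Z p (i + x.length) t)) := by
  induction x with
  | nil =>
    intro i P s _
    cases s <;> simp [sweepR, sm, sb_def, T, pr, Z]
  | cons n x ih =>
    intro i P s hP
    have h1 : G.Xs i p (P * (G.Z p i s * G.pr (i + 1) (n :: x))) =
        sb fun s' => sb fun n' => wt p s n n' s' •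
          ((P * G.En i n') * (G.Z p (i + 1) s' * G.pr (i + 1 + 1) x)) := by
      rw [pr_cons, show P * (G.Z p i s * (G.En (i + 1) n * G.pr (i + 1 + 1) x)) =
        (P * G.pr (i + 1 + 1) x) * (G.Z p i s * G.En (i + 1) n) by ring,
        ((hP i le_rfl (by simp)).mul (Out.pr x (by omega))) p, G.tileR]
      simp only [sb_def, Algebra.smul_def]
      ring
    have h2 : ∀ s' n', G.sweepR p (i + 1) x.length
        ((P * G.En i n') * (G.Z p (i + 1) s' * G.pr (i + 1 + 1) x)) =
        sm x.length fun z => sb fun t => T p x z s' t •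
          ((P * G.En i n') * (G.pr (i + 1) z * G.Z p (i + 1 + x.length) t)) := by
      intro s' n'
      refine ih (i + 1) (P * G.En i n') s' fun j hj hj' => ?_
      refine (hP j (by omega) (by simp only [List.length_cons]; omega)).mul
        (Out.En (by omega) n')
    simp only [List.length_cons, sweepR, LinearMap.comp_apply]
    rw [h1]
    simp only [sb_def, map_add, map_smul, h2, sm, smul_sm', ← sm_add]
    refine sm_congr fun z hz => ?_
    simp only [T, sb_def, pr_cons, Algebra.smul_def, map_add, map_mul,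
      show i + 1 + x.length = i + (x.length + 1) by ring]
    ring

/-- sweep to the left -/
theorem sweepL_pr (p : K) (z : List Bool) : ∀ (i : ℕ) (P : R) (t : Bool),
    (∀ j, i ≤ j → j < i + z.length → G.Out P j) →
    G.sweepL p i z.length (P * (G.pr (i + 1) z * G.Z' p (i + z.length) t)) =
      sm z.length fun y => sb fun s =>
        T2 p z y t s • (P * (G.Z' p i s * G.pr (i + 2) y)) := by
  induction z with
  | nil =>
    intro i P s _
    cases s <;> simp [sweepL, sm, sb_def, T2, pr, Z']
  | cons n z ih =>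
    intro i P t hP
    have h1 : ∀ s' (y : List Bool), G.Xs i p ((P * G.En (i + 1) n) *
          (G.Z' p (i + 1) s' * G.pr (i + 1 + 2) y)) =
        sb fun s => sb fun n' => wt p s' n n' s •
          (P * (G.Z' p i s * (G.En (i + 2) n' * G.pr (i + 1 + 2) y))) := by
      intro s' y
      rw [show (P * G.En (i + 1) n) * (G.Z' p (i + 1) s' * G.pr (i + 1 + 2) y) =
        (P * G.pr (i + 1 + 2) y) * (G.En (i + 1) n * G.Z' p (i + 1) s') by ring,
        ((hP i le_rfl (by simp)).mul (Out.pr y (by omega))) p, G.tileL]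
      simp only [sb_def, Algebra.smul_def]
      ring
    have h2 : G.sweepL p (i + 1) z.length ((P * G.En (i + 1) n) *
        (G.pr (i + 1 + 1) z * G.Z' p (i + 1 + z.length) t)) =
        sm z.length fun y => sb fun s' => T2 p z y t s' •
          ((P * G.En (i + 1) n) * (G.Z' p (i + 1) s' * G.pr (i + 1 + 2) y)) := by
      refine ih (i + 1) (P * G.En (i + 1) n) t fun j hj hj' => ?_
      refine (hP j (by omega) (by simp only [List.length_cons]; omega)).mul
        (Out.En (by omega) n)
    simp only [List.length_cons, sweepL, LinearMap.comp_apply]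
    rw [pr_cons, show P * (G.En (i + 1) n * G.pr (i + 1 + 1) z * G.Z' p (i + (z.length + 1)) t) =
      (P * G.En (i + 1) n) * (G.pr (i + 1 + 1) z * G.Z' p (i + 1 + z.length) t) by
        rw [show i + (z.length + 1) = i + 1 + z.length by ring]; ring, h2]
    simp only [sb_def, map_add, map_smul, h1, sm, sm_map, ← sm_add]
    refine sm_congr fun y hy => ?_
    simp only [T2, sb_def, pr_cons, Algebra.smul_def, map_add, map_mul,
      show i + 1 + 2 = i + 2 + 1 by ring]
    ring

/-! ### The ideal of the bonds on the right of the strip -/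

/-- ideal generated by the `E j`, `k ≤ j` -/
def I (k : ℕ) : Ideal R := Ideal.span {r | ∃ j, k ≤ j ∧ r = G.E j}

lemma E_mem_I {k j : ℕ} (h : k ≤ j) : G.E j ∈ G.I k := Ideal.subset_span ⟨j, h, rfl⟩

lemma I_map {k k' : ℕ} (φ : R →ₗ[K] R)
    (h : ∀ j ψ, k ≤ j → φ (ψ * G.E j) ∈ G.I k') {r : R} (hr : r ∈ G.I k) : φ r ∈ G.I k' := by
  suffices hs : ∀ ψ, φ (ψ * r) ∈ G.I k' by simpa using hs 1
  induction hr using Submodule.span_induction with
  | mem x hx =>
    obtain ⟨j, hj, rfl⟩ := hx
    exact fun ψ => h j ψ hj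
  | zero => intro ψ; simp
  | add x y _ _ hx hy => intro ψ; rw [mul_add, map_add]; exact add_mem (hx ψ) (hy ψ)
  | smul a x _ hx => intro ψ; rw [smul_eq_mul, ← mul_assoc]; exact hx _

lemma Xs_mem {k i : ℕ} (h : i + 2 ≤ k) (p : K) {r : R} (hr : r ∈ G.I k) : G.Xs i p r ∈ G.I k := by
  refine G.I_map _ (fun j ψ hj => ?_) hr
  rw [mul_comm, G.Xs_mul i j p ψ (by omega)]
  exact Ideal.mul_mem_right _ _ (G.E_mem_I hj)

lemma cs_mem {k : ℕ} {r : R} (hr : r ∈ G.I (k + 2)) : G.cs r ∈ G.I k := by
  refine G.I_map _ (fun j ψ hj => ?_) hr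
  obtain ⟨j, rfl⟩ : ∃ m, j = m + 2 := ⟨j - 2, by omega⟩
  rw [mul_comm, G.cs_mul j ψ]
  exact Ideal.mul_mem_right _ _ (G.E_mem_I (by omega))

lemma sweepL_mem {k : ℕ} (p : K) : ∀ (m i : ℕ), i + m + 1 ≤ k → ∀ {r : R}, r ∈ G.I k →
    G.sweepL p i m r ∈ G.I k := by
  intro m
  induction m with
  | zero => intro i _ r hr; exact hr
  | succ m ih => intro i hi r hr; exact G.Xs_mem (by omega) p (ih (i + 1) (by omega) hr)

lemma sweepL_succ' (p : K) : ∀ (m i : ℕ),
    G.sweepL p i (m + 1) = G.sweepL p i m ∘ₗ G.Xs (i + m) p := by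
  intro m
  induction m with
  | zero => intro i; rfl
  | succ m ih =>
    intro i
    rw [sweepL, ih (i + 1), show i + 1 + m = i + (m + 1) by ring]
    rfl

lemma ks_pr (x : List Bool) : ∀ j, G.ks (G.pr (j + 1) x) = G.pr (j + 3) x * (G.E 1 + G.E 2) := by
  induction x with
  | nil => intro j; simp [pr, G.ks_one]
  | cons n x ih =>
    intro j
    cases n
    · simp only [pr, En, cond_false, one_mul]
      exact ih (j + 1)
    · simp only [pr, En, cond_true]
      rw [G.ks_mul, ih (j + 1)]
      ring

lemma cs_pr (x : List Bool) : ∀ j ψ, G.cs (G.pr (j + 2) x * ψ) = G.pr j x * G.cs ψ := by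
  induction x with
  | nil => intro j ψ; simp [pr]
  | cons n x ih =>
    intro j ψ
    cases n
    · simp only [pr, En, cond_false, one_mul]
      exact ih (j + 1) ψ
    · simp only [pr, En, cond_true]
      rw [mul_assoc, G.cs_mul, mul_assoc]
      congr 1
      exact ih (j + 1) ψ

/-- left wall: end of the second sweep -/
lemma cs_left (p : K) (s s' : Bool) :
    G.cs (G.En 1 (!s) * G.Z' p 1 s') = if s = s' then KL p s • (1 : R) else 0 := by
  have h2 : ∀ ψ, G.cs (G.E 2 * ψ) = 0 := fun ψ => by
    have := G.cs_mul 0 ψ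
    rwa [G.E0, zero_mul] at this
  have h1 : G.E 1 * G.E 1 = 0 := by
    have := G.rel 0
    rw [G.E0] at this
    linear_combination this
  cases s <;> cases s'
  · simp [En, Z', KL, G.cs_E]
  · simp only [En, Z', Bool.not_false, cond_true, mul_add, mul_smul_comm, h1, smul_zero, add_zero]
    rw [mul_comm, h2]
    simp
  · simp [En, Z', G.cs_one]
  · simp only [En, Z', Bool.not_true, cond_true, cond_false, one_mul, map_add, map_smul, G.cs_E,
      KL, if_true]
    rw [← mul_one (G.E (1 + 1)), h2, zero_add]

/-- left wall: beginning of the first sweep -/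
lemma Xs_left (p : K) (x : List Bool) : G.Xs 1 p (G.pr 3 x * (G.E 1 + G.E 2)) =
    sb fun s => G.En 1 (!s) * (G.Z p 2 s * G.pr 3 x) := by
  have h1 : G.Out (G.E 1) 1 := Out.E (by omega)
  rw [(Out.pr x (by omega) : G.Out (G.pr 3 x) 1), map_add, G.Xs_one' 1 p _ h1, G.Xs_E 1 p]
  simp only [sb_def, En, Z, Bool.not_false, Bool.not_true, cond_true, cond_false, one_mul]
  simp only [Algebra.smul_def, map_sub, map_one]
  ring

/-- right wall -/
lemma Xs_right (p : K) (m : ℕ) (t : Bool) :
    G.Xs (m + 1) p (G.Z p (m + 2) t) - KR p t • G.Z' p (m + 1) t ∈ G.I (m + 3) := by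
  cases t
  · simp [Z, Z', KR, G.Xs_one]
  · have h3 : G.Out (G.E (m + 2 + 1)) (m + 1) := Out.E (by omega)
    have : G.Xs (m + 1) p (G.Z p (m + 2) true) - KR p true • G.Z' p (m + 1) true =
        ((1 - p) * (1 + p)) • G.E (m + 3) := by
      simp only [Z, Z', KR, cond_true, map_add, map_smul, one_smul]
      rw [G.Xs_one' (m + 1) p _ h3, G.Xs_E (m + 1) p]
      simp only [Algebra.smul_def, map_sub, map_one, map_mul, map_add]
      ring
    rw [this, Algebra.smul_def]
    exact Ideal.mul_mem_left _ _ (G.E_mem_I le_rfl)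

/-- the transposed double row matrix on `m + 1` strands -/
def Ds (p : K) (m : ℕ) : R →ₗ[K] R :=
  G.cs ∘ₗ G.sweepL p 1 (m + 1) ∘ₗ G.sweepR p 1 (m + 1) ∘ₗ G.ks

/-- the state after the first sweep -/
lemma first (p : K) (x : List Bool) :
    G.sweepR p 1 (x.length + 1) (G.ks (G.pr 1 x)) =
      sb fun s => sm x.length fun z => sb fun t =>
        T p x z s t • (G.En 1 (!s) * (G.pr 2 z * G.Z p (2 + x.length) t)) := by
  rw [sweepR, LinearMap.comp_apply, G.ks_pr x 0, G.Xs_left p x, sb_map]
  simp only [sb_def]
  congr 1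
  · exact G.sweepR_pr p x 2 _ _ fun j hj _ => Out.En (by omega) _
  · exact G.sweepR_pr p x 2 _ _ fun j hj _ => Out.En (by omega) _

/-- the action of the double row matrix on squarefree monomials -/
theorem Ds_pr (p : K) (x : List Bool) :
    G.Ds p x.length (G.pr 1 x) - sm x.length (fun y => Dm p x y • G.pr 1 y) ∈
      G.I (x.length + 1) := by
  set m := x.length with hm
  -- the state after the turn at the right wall
  set B : R := sb fun s => sm m fun z => sb fun t =>
    (T p x z s t * KR p t) • (G.En 1 (!s) * (G.pr 2 z * G.Z' p (1 + m) t)) with hB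
  have h1 : G.Xs (1 + m) p (G.sweepR p 1 (m + 1) (G.ks (G.pr 1 x))) - B ∈ G.I (m + 3) := by
    rw [hm, G.first p x, ← hm, hB]
    simp only [sb_def, map_add, sm_map, map_smul]
    rw [add_sub_add_comm, ← sm_sub, ← sm_sub]
    have key : ∀ s z t, z.length = m →
        T p x z s t • G.Xs (1 + m) p (G.En 1 (!s) * (G.pr 2 z * G.Z p (2 + m) t)) -
        (T p x z s t * KR p t) • (G.En 1 (!s) * (G.pr 2 z * G.Z' p (1 + m) t)) ∈ G.I (m + 3) := by
      intro s z t hz
      have o : G.Out (G.En 1 (!s) * G.pr 2 z) (1 + m) :=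
        (Out.En (by omega) _).mul (Out.pr' z (by omega))
      have e : T p x z s t • G.Xs (1 + m) p (G.En 1 (!s) * (G.pr 2 z * G.Z p (2 + m) t)) -
        (T p x z s t * KR p t) • (G.En 1 (!s) * (G.pr 2 z * G.Z' p (1 + m) t)) =
        (algebraMap K R (T p x z s t) * (G.En 1 (!s) * G.pr 2 z)) *
          (G.Xs (m + 1) p (G.Z p (m + 2) t) - KR p t • G.Z' p (m + 1) t) := by
        rw [← mul_assoc (G.En 1 (!s)), o, add_comm 1 m, add_comm 2 m]
        simp only [Algebra.smul_def, map_mul]
        ring
      rw [e]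
      exact Ideal.mul_mem_left _ _ (G.Xs_right p m t)
    refine add_mem (sm_mem _ fun z hz => ?_) (sm_mem _ fun z hz => ?_)
    · rw [add_sub_add_comm]
      exact add_mem (key _ z _ hz) (key _ z _ hz)
    · rw [add_sub_add_comm]
      exact add_mem (key _ z _ hz) (key _ z _ hz)
  have h2 : G.Ds p m (G.pr 1 x) - G.cs (G.sweepL p 1 m B) ∈ G.I (m + 1) := by
    have : G.Ds p m (G.pr 1 x) - G.cs (G.sweepL p 1 m B) =
        G.cs (G.sweepL p 1 m (G.Xs (1 + m) p (G.sweepR p 1 (m + 1) (G.ks (G.pr 1 x))) - B)) := by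
      rw [map_sub, map_sub, Ds, G.sweepL_succ']
      rfl
    rw [this]
    exact G.cs_mem (G.sweepL_mem p m 1 (by omega) h1)
  have h3 : ∀ s z t, z.length = m →
      G.cs (G.sweepL p 1 m (G.En 1 (!s) * (G.pr 2 z * G.Z' p (1 + m) t))) =
        sm m fun y => (T2 p z y t s * KL p s) • G.pr 1 y := by
    intro s z t hz
    have := G.sweepL_pr p z 1 (G.En 1 (!s)) t fun j hj _ => Out.En (by omega) _
    rw [hz] at this
    rw [this, sm_map]
    refine sm_congr fun y hy => ?_
    have h4 : ∀ s', G.cs (G.En 1 (!s) * (G.Z' p 1 s' * G.pr (1 + 2) y)) =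
        if s = s' then KL p s • G.pr 1 y else 0 := by
      intro s'
      rw [show G.En 1 (!s) * (G.Z' p 1 s' * G.pr (1 + 2) y) =
        G.pr (1 + 2) y * (G.En 1 (!s) * G.Z' p 1 s') by ring, G.cs_pr, G.cs_left]
      split_ifs
      · rw [mul_smul_comm, mul_one]
      · rw [mul_zero]
    simp only [sb_def, map_add, map_smul, h4]
    cases s <;> simp [mul_smul]
  have h4 : G.cs (G.sweepL p 1 m B) = sm m fun y => Dm p x y • G.pr 1 y := by
    rw [hB]
    simp only [sb_def, map_add, sm_map, map_smul]
    have e1 : ∀ s, sm m (fun z =>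
        (T p x z s false * KR p false) •
            G.cs (G.sweepL p 1 m (G.En 1 (!s) * (G.pr 2 z * G.Z' p (1 + m) false))) +
          (T p x z s true * KR p true) •
            G.cs (G.sweepL p 1 m (G.En 1 (!s) * (G.pr 2 z * G.Z' p (1 + m) true)))) =
        sm m fun y => (sb fun t => KL p s * KR p t * sm m fun z => T p x z s t * T2 p z y t s) •
          G.pr 1 y := by
      intro s
      rw [sm_congr (g := fun z => sm m fun y => (sb fun t =>
        KL p s * KR p t * (T p x z s t * T2 p z y t s)) • G.pr 1 y), sm_comm]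
      · refine sm_congr fun y _ => ?_
        refine (sm_smul (fun z => sb fun t => KL p s * KR p t * (T p x z s t * T2 p z y t s))
          (G.pr 1 y)).symm.trans ?_
        rw [sm_sb]
        simp only [sb_def, sm_mul_left]
      · intro z hz
        rw [h3 _ z _ hz, h3 _ z _ hz, smul_sm', smul_sm', ← sm_add]
        refine sm_congr fun y _ => ?_
        rw [smul_smul, smul_smul, ← add_smul]
        congr 1
        simp only [sb_def]
        ring
    have e2 := e1 false
    have e3 := e1 true
    simp only [Bool.not_false, Bool.not_true] at e2 e3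
    simp only [Bool.not_false, Bool.not_true]
    rw [e2, e3, ← sm_add]
    refine sm_congr fun y _ => ?_
    rw [← add_smul]
    rfl
  rw [h4] at h2
  exact h2

end RingSys

end Pool.Agent.Helper69.Rect
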